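import Pool.Agent.PCO.StmtsP
import Pool.Agent.Helper82_PFJ.Main

/-!
# Row N5 of the squad NTS (PCO): the conclusion of Q1 for `n ≤ 5`
-/

set_option autoImplicit false

open Matrix Filter Topology

namespace Pool.Agent.PCO.H58

open Pool.Agent.PFS Pool.Agent.PFJ Pool.Agent.PCO

/-- the dimension of the face of the edge `0, 1` -/
noncomputable def DD {n K' : ℕ} (C : Set (V n)) (w : Fin (K' + 2) → V n) : ℕ :=
  Module.finrank ℝ (Submodule.span ℝ (Face C (w 0 + w 1)))

theorem perm {m : ℕ} {i j : Fin (m + 2)} (hij : i ≠ j) :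
    ∃ σ : Equiv.Perm (Fin (m + 2)), σ 0 = i ∧ σ 1 = j := by
  have h01 : (0 : Fin (m + 2)) ≠ 1 := by
    intro h
    have := congrArg Fin.val h
    simp at this
  set τ : Equiv.Perm (Fin (m + 2)) := Equiv.swap 0 i with hτ
  have h1 : τ 0 = i := Equiv.swap_apply_left _ _
  have h2 : τ.symm j ≠ 0 := by
    intro h
    apply hij
    rw [← h1, ← h, Equiv.apply_symm_apply]
  refine ⟨(Equiv.swap 1 (τ.symm j)).trans τ, ?_, ?_⟩
  · rw [Equiv.trans_apply, Equiv.swap_apply_of_ne_of_ne h01 h2.symm, h1]
  · rw [Equiv.trans_apply, Equiv.swap_apply_left, Equiv.apply_symm_apply]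

theorem three {n : ℕ} {C : Set (V n)} (hC : PCone C) {K' : ℕ} {w : Fin (K' + 2) → V n}
    (hw : PES C w) (hcl : ∀ i, w i ∈ closure C) {y : V n} (hy : y ∈ closure C) {M : ℝ}
    (hM : M • (w 0 + w 1) - y ∈ closure C) (hne : ¬ ∃ a b : ℝ, y = a • w 0 + b • w 1) :
    3 ≤ Module.finrank ℝ (Submodule.span ℝ (Face C (w 0 + w 1))) := by
  set x := w 0 + w 1 with hx
  have hxc : x ∈ closure C := hC.cl_add (hcl 0) (hcl 1)
  set S := Submodule.span ℝ (Face C x) with hS
  have hxS : x ∈ S := Submodule.subset_span (H32.face_self hC)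
  -- elements below a multiple of `x` are in the span
  have key : ∀ (z : V n) (N : ℝ), z ∈ closure C → N • x - z ∈ closure C → z ∈ S := by
    intro z N hz hN
    set N' := max N 0 with hN'
    have h0 : 0 ≤ N' := le_max_right _ _
    have h1 : N' • x - z ∈ closure C := by
      have h2 : (N • x - z) + (N' - N) • x ∈ closure C :=
        hC.cl_add hN (hC.cl_smul hxc (sub_nonneg.2 (le_max_left _ _)))
      have h3 : (N • x - z) + (N' - N) • x = N' • x - z := by module
      rwa [h3] at h2
    have h2 : x + z ∈ Face C x := by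
      refine ⟨1 / (1 + N'), by positivity, ?_, ?_⟩
      · have h3 : x - (1 / (1 + N')) • (x + z) = (1 / (1 + N')) • (N' • x - z) := by
          have h4 : x = (1 / (1 + N')) • ((1 + N') • x) := by
            rw [smul_smul, one_div_mul_cancel (by positivity), one_smul]
          nth_rewrite 1 [h4]
          module
        rw [h3]
        exact hC.cl_smul h1 (by positivity)
      · have h3 : x + z - (1 / (1 + N')) • x = (1 - 1 / (1 + N')) • x + z := by module
        rw [h3]
        refine hC.cl_add (hC.cl_smul hxc ?_) hz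
        rw [sub_nonneg, div_le_one (by positivity)]
        linarith
    have h3 : z = (x + z) - x := by abel
    rw [h3]
    exact Submodule.sub_mem _ (Submodule.subset_span h2) hxS
  have h0 : w 0 ∈ S := key (w 0) 1 (hcl 0) (by rw [one_smul, hx, add_sub_cancel_left]; exact hcl 1)
  have h1 : w 1 ∈ S := key (w 1) 1 (hcl 1) (by rw [one_smul, hx, add_sub_cancel_right]; exact hcl 0)
  have hyS : y ∈ S := key y M hy hM
  have hlin := H60.lin n C hC (Fin (K' + 2)) w hw
  have h01 : (0 : Fin (K' + 2)) ≠ 1 := by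
    intro h
    have := congrArg Fin.val h
    simp at this
  have hinj : Function.Injective (![0, 1] : Fin 2 → Fin (K' + 2)) := by
    intro a b hab
    fin_cases a <;> fin_cases b <;> simp_all
  have hl2 : LinearIndependent ℝ (fun i => w ((![0, 1] : Fin 2 → Fin (K' + 2)) i)) :=
    hlin.comp _ hinj
  have hr : Module.finrank ℝ (Submodule.span ℝ
      (Set.range (fun i => w ((![0, 1] : Fin 2 → Fin (K' + 2)) i)))) = 2 := by
    rw [finrank_span_eq_card hl2, Fintype.card_fin]
  have hlt : Submodule.span ℝ (Set.range (fun i => w ((![0, 1] : Fin 2 → Fin (K' + 2)) i))) < S := by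
    refine lt_of_le_of_ne ?_ ?_
    · rw [Submodule.span_le]
      rintro _ ⟨i, rfl⟩
      fin_cases i
      · exact h0
      · exact h1
    · intro he
      rw [← he] at hyS
      have h2 : Set.range (fun i => w ((![0, 1] : Fin 2 → Fin (K' + 2)) i)) = {w 0, w 1} := by
        ext z
        constructor
        · rintro ⟨i, rfl⟩
          fin_cases i
          · exact Or.inl rfl
          · exact Or.inr rfl
        · rintro (rfl | rfl)
          · exact ⟨0, rfl⟩
          · exact ⟨1, rfl⟩
      rw [h2, Submodule.mem_span_pair] at hyS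
      obtain ⟨a, b, hab⟩ := hyS
      exact hne ⟨a, b, hab.symm⟩
  have := Submodule.finrank_lt_finrank_of_lt hlt
  rw [hr] at this
  exact this

theorem n5 (fae : Pool.Agent.NTS.FaeStmt) (cod : CodStmt) (edm : EdmStmt) (top : TopStmt) :
    N5Stmt := by
  intro n C Γ h hn h3
  rcases Nat.lt_or_ge 4 n with hn5 | hn4
  swap
  · exact H82.lowF h hn4 h3
  have hn' : n = 5 := by omega
  have hC : PCone C := h.toPCone
  obtain ⟨k, hk, ⟨v, hv⟩, hmax⟩ := H73.mxk H60.lin n C Γ h h3
  by_cases hall : ∀ w : Fin (k + 1) → V n, IsPES C Γ w → Pool.Agent.NTS.TrivEdges C w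
  · refine ⟨k, hk, v, fae n C Γ h k hk hmax (fun w => IsPES C Γ w) ?_ hall v hv⟩
    refine ⟨fun w hw => hw, fun w hw c hc => ?_, fun w hw g hg s hs => ?_, fun x w _ _ hw => hw⟩
    · exact (H60.elm n C Γ h _ w hw).1 c hc
    · exact (H60.elm n C Γ h _ w hw).2.1 g hg s hs
  · push Not at hall
    obtain ⟨w, hw, hne⟩ := hall
    obtain ⟨K', rfl⟩ : ∃ K', k = K' + 1 := ⟨k - 1, by omega⟩
    have hK' : 1 ≤ K' := by omega
    unfold Pool.Agent.NTS.TrivEdges at hne
    push Not at hne
    obtain ⟨i, j, hij, y, hy, M, hM, hab⟩ := hne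
    obtain ⟨σ, hσ0, hσ1⟩ := perm (m := K') hij
    have hw' : IsPES C Γ (fun l => w (σ l)) := (H60.elm n C Γ h _ w hw).2.2.1 _ σ
    have hcl : ∀ i, w (σ i) ∈ closure C := fun i => hw'.1.cl i
    have hd3 := three hC (K' := K') hw'.1 hcl (y := y) hy (M := M)
      (by rw [hσ0, hσ1]; exact hM)
      (by
        rw [hσ0, hσ1]
        rintro ⟨a, b, e⟩
        exact hab a b e)
    have he := (edm n C hC K' (fun l => w (σ l)) hw'.1).2
    have hKc : K' = 1 ∨ K' = 2 := by omega
    rcases hKc with rfl | rfl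
    · by_cases h4 : ∃ w : Fin (1 + 2) → V n, IsPES C Γ w ∧
        Module.finrank ℝ (Submodule.span ℝ (Face C (w 0 + w 1))) = 4
      · obtain ⟨w4, hw4, hd4⟩ := h4
        obtain ⟨v', hv'⟩ := top n C Γ h 1 le_rfl hmax w4 hw4 (by omega) (by omega)
        exact ⟨1 + 1, by norm_num, v', hv'⟩
      · push Not at h4
        have hle : ∀ w' : Fin (1 + 2) → V n, IsPES C Γ w' →
            Module.finrank ℝ (Submodule.span ℝ (Face C (w' 0 + w' 1))) ≤ 3 := by
          intro w' hw'
          have h5 := (edm n C hC 1 w' hw'.1).2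
          have h6 := h4 w' hw'
          omega
        have hd : Module.finrank ℝ (Submodule.span ℝ (Face C (w (σ 0) + w (σ 1)))) = 3 := by
          have := hle _ hw'
          omega
        obtain ⟨v', _, hv'⟩ := cod n C Γ h hmax (fun l => w (σ l)) hw' hd3
          (by
            show n = Module.finrank ℝ (Submodule.span ℝ (Face C (w (σ 0) + w (σ 1)))) + 2
            omega)
          (fun w' hw' => (hle w' hw').trans hd3)
        exact ⟨2, le_rfl, v', hv'⟩
    · obtain ⟨v', hv'⟩ := top n C Γ h 2 (by norm_num) hmax (fun l => w (σ l)) hw' hd3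
        (by omega)
      exact ⟨2 + 1, by norm_num, v', hv'⟩

end Pool.Agent.PCO.H58
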